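import Mathlib.Algebra.BigOperators.Ring.Finset
import Mathlib.Data.Real.Basic
import Mathlib.Tactic

/-!
Coupling of a probability on the subsets of a finite set, all of whose conditional probabilities of
one element given the others are between `1/2 - x` and `1/2 + x`, with two Bernoulli measures.
-/

set_option autoImplicit false

namespace Pool.Agent.Helper47K9.FQ

open Finset

variable {α : Type} [DecidableEq α]

/-- Bernoulli weight. -/
def pw (y : ℝ) (S T : Finset α) : ℝ := (∏ _e ∈ T, y) * ∏ _e ∈ S \ T, (1 - y)

/-- The weights of the eight possibilities for a new element. -/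
noncomputable def kap (x c : ℝ) (a b d : Prop) [Decidable a] [Decidable b] [Decidable d] : ℝ :=
  if a then (if b then (if d then 1/2 - x else 0) else 0)
  else (if b then (if d then c - (1/2 - x) else 0) else (if d then 1/2 + x - c else 1/2 - x))

theorem pw_insert_mem (y : ℝ) {S T : Finset α} {e : α} (he : e ∉ S) (hT : T ⊆ S) :
    pw y (insert e S) (insert e T) = y * pw y S T := by
  have heT : e ∉ T := fun h => he (hT h)
  unfold pw
  rw [prod_insert heT, insert_sdiff_insert, sdiff_insert_of_notMem he, mul_assoc]

theorem pw_insert_not (y : ℝ) {S T : Finset α} {e : α} (he : e ∉ S) (hT : T ⊆ S) :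
    pw y (insert e S) T = (1 - y) * pw y S T := by
  have heT : e ∉ T := fun h => he (hT h)
  unfold pw
  rw [insert_sdiff_of_notMem _ heT, prod_insert (fun h => he (mem_sdiff.mp h).1)]
  ring

theorem coupling (x : ℝ) (hx : 0 ≤ x) (hx2 : x ≤ 1/2) (S : Finset α) :
    ∀ ν : Finset α → ℝ, (∀ T ⊆ S, 0 ≤ ν T) → (∑ T ∈ S.powerset, ν T = 1) →
      (∀ e ∈ S, ∀ T ⊆ S.erase e, (1/2 - x) * (ν T + ν (insert e T)) ≤ ν (insert e T) ∧
        ν (insert e T) ≤ (1/2 + x) * (ν T + ν (insert e T))) →
      ∃ J : Finset α → Finset α → Finset α → ℝ, (∀ a b d, 0 ≤ J a b d) ∧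
        (∀ a b d, J a b d ≠ 0 → a ⊆ b ∧ b ⊆ d ∧ d ⊆ S) ∧
        (∀ a ⊆ S, ∑ b ∈ S.powerset, ∑ d ∈ S.powerset, J a b d = pw (1/2 - x) S a) ∧
        (∀ b ⊆ S, ∑ a ∈ S.powerset, ∑ d ∈ S.powerset, J a b d = ν b) ∧
        (∀ d ⊆ S, ∑ a ∈ S.powerset, ∑ b ∈ S.powerset, J a b d = pw (1/2 + x) S d) := by
  induction S using Finset.induction_on with
  | empty =>
    intro ν h1 h2 h3
    have h2' : ν ∅ = 1 := by simpa using h2
    refine ⟨fun a b d => if a = ∅ ∧ b = ∅ ∧ d = ∅ then 1 else 0, ?_, ?_, ?_, ?_, ?_⟩
    · intro a b d
      beta_reduce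
      split_ifs <;> norm_num
    · intro a b d h
      beta_reduce at h
      split_ifs at h with h4
      · obtain ⟨rfl, rfl, rfl⟩ := h4
        simp
      · exact absurd rfl h
    · intro a ha
      rw [subset_empty.mp ha, powerset_empty, sum_singleton, sum_singleton]
      simp [pw]
    · intro a ha
      rw [subset_empty.mp ha, powerset_empty, sum_singleton, sum_singleton]
      simp [h2']
    · intro a ha
      rw [subset_empty.mp ha, powerset_empty, sum_singleton, sum_singleton]
      simp [pw]
  | insert e S he ih =>
    intro ν hpos hsum hrat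
    have hin : ∀ T ⊆ S, e ∉ T := fun T hT h => he (hT h)
    have hν0 : ∀ T ⊆ S, 0 ≤ ν T := fun T hT => hpos T (hT.trans (subset_insert e S))
    have hν1 : ∀ T ⊆ S, 0 ≤ ν (insert e T) := fun T hT => hpos _ (insert_subset_insert e hT)
    have hν' : ∀ T ⊆ S, 0 ≤ ν T + ν (insert e T) := fun T hT => add_nonneg (hν0 T hT) (hν1 T hT)
    obtain ⟨J, hJ0, hJs, hJ1, hJ2, hJ3⟩ := ih (fun T => ν T + ν (insert e T)) hν' (by
      rw [sum_powerset_insert he] at hsum
      rw [sum_add_distrib]
      exact hsum) (by
      intro e' he' T hT
      have hne : e' ≠ e := fun h => he (h ▸ he')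
      have heT : e ∉ T := fun h => he (erase_subset _ _ (hT h))
      have hT1 : T ⊆ (insert e S).erase e' := by
        intro z hz
        have := mem_erase.mp (hT hz)
        exact mem_erase.mpr ⟨this.1, mem_insert_of_mem this.2⟩
      have hT2 : insert e T ⊆ (insert e S).erase e' := by
        apply insert_subset _ hT1
        exact mem_erase.mpr ⟨hne.symm, mem_insert_self _ _⟩
      have h1 := hrat e' (mem_insert_of_mem he') T hT1
      have h2 := hrat e' (mem_insert_of_mem he') (insert e T) hT2
      rw [insert_comm e' e T] at h2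
      beta_reduce
      constructor <;> linarith [h1.1, h1.2, h2.1, h2.2])
    obtain ⟨c, hc, hc1⟩ : ∃ c : Finset α → ℝ, (∀ T ⊆ S, 1/2 - x ≤ c T ∧ c T ≤ 1/2 + x) ∧
        ∀ T ⊆ S, ν (insert e T) = c T * (ν T + ν (insert e T)) := by
      have hex : ∀ T : Finset α, ∃ y : ℝ, T ⊆ S → (1/2 - x ≤ y ∧ y ≤ 1/2 + x) ∧
          ν (insert e T) = y * (ν T + ν (insert e T)) := by
        intro T
        by_cases h0 : ν T + ν (insert e T) = 0
        · refine ⟨1/2, fun hT => ⟨⟨by linarith, by linarith⟩, ?_⟩⟩
          rw [h0, mul_zero]
          linarith [hν0 T hT, hν1 T hT]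
        · refine ⟨ν (insert e T) / (ν T + ν (insert e T)), fun hT => ⟨?_, ?_⟩⟩
          · have h1 := hrat e (mem_insert_self _ _) T (by rw [erase_insert he]; exact hT)
            have h2 : 0 < ν T + ν (insert e T) := lt_of_le_of_ne (hν' T hT) (Ne.symm h0)
            constructor
            · rw [le_div_iff₀ h2]
              exact h1.1
            · rw [div_le_iff₀ h2]
              exact h1.2
          · rw [div_mul_cancel₀ _ h0]
      choose c hc using hex
      exact ⟨c, fun T hT => (hc T hT).1, fun T hT => (hc T hT).2⟩
    refine ⟨fun a b d => J (a.erase e) (b.erase e) (d.erase e) *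
      kap x (c (b.erase e)) (e ∈ a) (e ∈ b) (e ∈ d), ?_, ?_, ?_, ?_, ?_⟩
    · intro a b d
      beta_reduce
      by_cases h : J (a.erase e) (b.erase e) (d.erase e) = 0
      · rw [h, zero_mul]
      · have h1 := hJs _ _ _ h
        have h2 := hc (b.erase e) (h1.2.1.trans h1.2.2)
        apply mul_nonneg (hJ0 _ _ _)
        unfold kap
        split_ifs <;> linarith [h2.1, h2.2]
    · intro a b d h
      beta_reduce at h
      have h1 := hJs _ _ _ (left_ne_zero_of_mul h)
      have h2 := right_ne_zero_of_mul h
      have key : (e ∈ a → e ∈ b) ∧ (e ∈ b → e ∈ d) := by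
        unfold kap at h2
        clear hc1 hc hν' hν0 hν1 hJ1 hJ2 hJ3 hrat ih
        by_cases ha : e ∈ a <;> by_cases hb : e ∈ b <;> by_cases hd : e ∈ d <;>
          simp_all
      have sub : ∀ u v : Finset α, u.erase e ⊆ v.erase e → (e ∈ u → e ∈ v) → u ⊆ v := by
        intro u v h5 h6 z hz
        by_cases hze : z = e
        · rw [hze] at hz ⊢; exact h6 hz
        · exact erase_subset _ _ (h5 (mem_erase.mpr ⟨hze, hz⟩))
      refine ⟨sub _ _ h1.1 key.1, sub _ _ h1.2.1 key.2, ?_⟩
      intro z hz
      by_cases hze : z = e
      · rw [hze]; exact mem_insert_self _ _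
      · exact mem_insert_of_mem (h1.2.2 (mem_erase.mpr ⟨hze, hz⟩))
    · -- first marginal
      intro a ha
      rw [sum_powerset_insert he]
      have hb1 : ∀ b ∈ S.powerset, b.erase e = b ∧ (insert e b).erase e = b ∧ (e ∈ b) = False ∧
          (e ∈ insert e b) = True := by
        intro b hb
        have := hin b (mem_powerset.mp hb)
        exact ⟨erase_eq_of_notMem this, erase_insert this, eq_false this, eq_true (mem_insert_self _ _)⟩
      by_cases hea : e ∈ a
      · have ha2 : a.erase e ⊆ S := by
          rw [erase_eq]
          intro z hz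
          rw [mem_sdiff, mem_singleton] at hz
          exact (mem_insert.mp (ha hz.1)).resolve_left hz.2
        have h4 := pw_insert_mem (1/2 - x) he ha2
        rw [insert_erase hea] at h4
        rw [h4, ← hJ1 _ ha2, mul_sum, ← sum_add_distrib]
        apply sum_congr rfl
        intro b hb
        rw [sum_powerset_insert he, sum_powerset_insert he, mul_sum, ← sum_add_distrib,
          ← sum_add_distrib, ← sum_add_distrib]
        apply sum_congr rfl
        intro d hd
        obtain ⟨b1, b2, b3, b4⟩ := hb1 b hb
        obtain ⟨d1, d2, d3, d4⟩ := hb1 d hd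
        simp only [kap, b1, b2, b3, b4, d1, d2, d3, d4, hea, if_true, if_false]
        ring
      · have ha2 : a ⊆ S := by
          intro z hz
          exact (mem_insert.mp (ha hz)).resolve_left (fun h => hea (h ▸ hz))
        have h4 := pw_insert_not (1/2 - x) he ha2
        rw [h4, ← hJ1 _ ha2, mul_sum, ← sum_add_distrib]
        apply sum_congr rfl
        intro b hb
        rw [sum_powerset_insert he, sum_powerset_insert he, mul_sum, ← sum_add_distrib,
          ← sum_add_distrib, ← sum_add_distrib]
        apply sum_congr rfl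
        intro d hd
        obtain ⟨b1, b2, b3, b4⟩ := hb1 b hb
        obtain ⟨d1, d2, d3, d4⟩ := hb1 d hd
        have a1 := erase_eq_of_notMem hea
        simp only [kap, a1, b1, b2, b3, b4, d1, d2, d3, d4, hea, if_true, if_false]
        ring
    · -- middle marginal
      intro b hbb
      rw [sum_powerset_insert he]
      have hb1 : ∀ b ∈ S.powerset, b.erase e = b ∧ (insert e b).erase e = b ∧ (e ∈ b) = False ∧
          (e ∈ insert e b) = True := by
        intro b hb
        have := hin b (mem_powerset.mp hb)
        exact ⟨erase_eq_of_notMem this, erase_insert this, eq_false this, eq_true (mem_insert_self _ _)⟩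
      by_cases heb : e ∈ b
      · have hb2 : b.erase e ⊆ S := by
          rw [erase_eq]
          intro z hz
          rw [mem_sdiff, mem_singleton] at hz
          exact (mem_insert.mp (hbb hz.1)).resolve_left hz.2
        have h5 : ν b = c (b.erase e) * (ν (b.erase e) + ν (insert e (b.erase e))) := by
          have h6 := hc1 _ hb2
          rw [insert_erase heb] at h6 ⊢
          exact h6
        rw [h5, ← hJ2 _ hb2, mul_sum, ← sum_add_distrib]
        apply sum_congr rfl
        intro a ha
        rw [sum_powerset_insert he, sum_powerset_insert he, mul_sum, ← sum_add_distrib,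
          ← sum_add_distrib, ← sum_add_distrib]
        apply sum_congr rfl
        intro d hd
        obtain ⟨a1, a2, a3, a4⟩ := hb1 a ha
        obtain ⟨d1, d2, d3, d4⟩ := hb1 d hd
        simp only [kap, a1, a2, a3, a4, d1, d2, d3, d4, heb, if_true, if_false]
        ring
      · have hb2 : b ⊆ S := by
          intro z hz
          exact (mem_insert.mp (hbb hz)).resolve_left (fun h => heb (h ▸ hz))
        have h5 : ν b = (1 - c b) * (ν b + ν (insert e b)) := by
          have h6 := hc1 _ hb2
          linarith
        rw [h5, ← hJ2 _ hb2, mul_sum, ← sum_add_distrib]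
        apply sum_congr rfl
        intro a ha
        rw [sum_powerset_insert he, sum_powerset_insert he, mul_sum, ← sum_add_distrib,
          ← sum_add_distrib, ← sum_add_distrib]
        apply sum_congr rfl
        intro d hd
        obtain ⟨a1, a2, a3, a4⟩ := hb1 a ha
        obtain ⟨d1, d2, d3, d4⟩ := hb1 d hd
        have b1 := erase_eq_of_notMem heb
        simp only [kap, b1, a1, a2, a3, a4, d1, d2, d3, d4, heb, if_true, if_false]
        ring
    · -- last marginal
      intro d hdd
      rw [sum_powerset_insert he]
      have hb1 : ∀ b ∈ S.powerset, b.erase e = b ∧ (insert e b).erase e = b ∧ (e ∈ b) = False ∧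
          (e ∈ insert e b) = True := by
        intro b hb
        have := hin b (mem_powerset.mp hb)
        exact ⟨erase_eq_of_notMem this, erase_insert this, eq_false this, eq_true (mem_insert_self _ _)⟩
      by_cases hed : e ∈ d
      · have hd2 : d.erase e ⊆ S := by
          rw [erase_eq]
          intro z hz
          rw [mem_sdiff, mem_singleton] at hz
          exact (mem_insert.mp (hdd hz.1)).resolve_left hz.2
        have h4 := pw_insert_mem (1/2 + x) he hd2
        rw [insert_erase hed] at h4
        rw [h4, ← hJ3 _ hd2, mul_sum, ← sum_add_distrib]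
        apply sum_congr rfl
        intro a ha
        rw [sum_powerset_insert he, sum_powerset_insert he, mul_sum, ← sum_add_distrib,
          ← sum_add_distrib, ← sum_add_distrib]
        apply sum_congr rfl
        intro b hb
        obtain ⟨b1, b2, b3, b4⟩ := hb1 b hb
        obtain ⟨a1, a2, a3, a4⟩ := hb1 a ha
        simp only [kap, b1, b2, b3, b4, a1, a2, a3, a4, hed, if_true, if_false]
        ring
      · have hd2 : d ⊆ S := by
          intro z hz
          exact (mem_insert.mp (hdd hz)).resolve_left (fun h => hed (h ▸ hz))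
        have h4 := pw_insert_not (1/2 + x) he hd2
        rw [h4, ← hJ3 _ hd2, mul_sum, ← sum_add_distrib]
        apply sum_congr rfl
        intro a ha
        rw [sum_powerset_insert he, sum_powerset_insert he, mul_sum, ← sum_add_distrib,
          ← sum_add_distrib, ← sum_add_distrib]
        apply sum_congr rfl
        intro b hb
        obtain ⟨b1, b2, b3, b4⟩ := hb1 b hb
        obtain ⟨a1, a2, a3, a4⟩ := hb1 a ha
        have d1 := erase_eq_of_notMem hed
        simp only [kap, d1, b1, b2, b3, b4, a1, a2, a3, a4, hed, if_true, if_false]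
        ring

end Pool.Agent.Helper47K9.FQ
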