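import Pool.Agent.Helper47K9.FQ.Lim
import Pool.Agent.Helper38K9.NI.Fin

/-!
Dependent percolation near `1/2`: random configurations all of whose conditional probabilities of one
edge given the others are between `1/2 - x` and `1/2 + x`.
-/

set_option autoImplicit false

namespace Pool.Agent.Helper47K9.FQ

open H974 H973 H934E NI38 Finset MeasureTheory TopologicalSpace Filter Topology

/-- `ν` is a probability on the subsets of `S`. -/
def IsW (S : Finset Edg) (ν : Finset Edg → ℝ) : Prop :=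
  (∀ T ⊆ S, 0 ≤ ν T) ∧ ∑ T ∈ S.powerset, ν T = 1

/-- Under `ν` the conditional probability of each element of `S`, given the other elements of the
random subset, is between `1/2 - x` and `1/2 + x`. -/
def Near (x : ℝ) (S : Finset Edg) (ν : Finset Edg → ℝ) : Prop :=
  ∀ e ∈ S, ∀ T ⊆ S.erase e, (1/2 - x) * (ν T + ν (insert e T)) ≤ ν (insert e T) ∧
    ν (insert e T) ≤ (1/2 + x) * (ν T + ν (insert e T))

/-- The law of the trace when the set of open edges has the law `ν`, as a measure. -/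
noncomputable def genM (R : Rect) {δ : ℝ} (hδ : 0 < δ) (ν : Finset Edg → ℝ) :
    Measure (NonemptyCompacts ℂ) :=
  ∑ F ∈ (R.edges δ).powerset, ENNReal.ofReal (ν F) • Measure.dirac (R.trace hδ F)

theorem genM_univ (R : Rect) {δ : ℝ} (hδ : 0 < δ) {ν : Finset Edg → ℝ}
    (h : IsW (R.edges δ) ν) : genM R hδ ν Set.univ = 1 := by
  unfold genM
  rw [Measure.finsetSum_apply]
  have h1 : ∀ F ∈ (R.edges δ).powerset,
      (ENNReal.ofReal (ν F) • Measure.dirac (R.trace hδ F)) Set.univ = ENNReal.ofReal (ν F) := by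
    intro F _
    rw [Measure.smul_apply, measure_univ, smul_eq_mul, mul_one]
  rw [Finset.sum_congr rfl h1, ← ENNReal.ofReal_sum_of_nonneg, h.2, ENNReal.ofReal_one]
  intro F hF
  exact h.1 F (Finset.mem_powerset.mp hF)

/-- The law of the trace when the set of open edges has the law `ν`. -/
noncomputable def genLaw (R : Rect) {δ : ℝ} (hδ : 0 < δ) (ν : Finset Edg → ℝ)
    (h : IsW (R.edges δ) ν) : ProbabilityMeasure (NonemptyCompacts ℂ) :=
  ⟨genM R hδ ν, ⟨genM_univ R hδ h⟩⟩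

theorem genM_eq_map {Ω : Type} [MeasurableSpace Ω] {μ : Measure Ω} {R : Rect} {δ : ℝ} (hδ : 0 < δ)
    {ν : Finset Edg → ℝ} {F : Ω → Finset Edg} (hF : HasW μ (R.edges δ) ν F) :
    genM R hδ ν = μ.map (fun ω => R.trace hδ (F ω)) := by
  classical
  ext G hG
  rw [Measure.map_apply (meas_tr hδ hF) hG]
  have h1 := hasW_prob hF (fun F => R.trace hδ F ∈ G)
  change genM R hδ ν G = μ {ω | R.trace hδ (F ω) ∈ G}
  rw [h1]
  unfold genM
  rw [Measure.finsetSum_apply, Finset.sum_filter]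
  apply Finset.sum_congr rfl
  intro T _
  rw [Measure.smul_apply, Measure.dirac_apply' _ hG, smul_eq_mul]
  by_cases h : R.trace hδ T ∈ G
  · rw [if_pos h, Set.indicator_of_mem h]; simp
  · rw [if_neg h, Set.indicator_of_notMem h]; simp

theorem fk_isW (R : Rect) (δ : ℝ) {q : ℝ} (hq : 0 < q) :
    IsW (R.edges δ) (fun T => wt R δ q T / Z R δ q) :=
  ⟨fun T _ => (div_pos (wt_pos R δ hq T) (Z_pos R δ hq)).le, sum_nu R δ hq⟩

theorem Near.mono {x y : ℝ} (hxy : x ≤ y) {S : Finset Edg} {ν : Finset Edg → ℝ}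
    (hν : ∀ T ⊆ S, 0 ≤ ν T) (h : Near x S ν) : Near y S ν := by
  intro e he T hT
  obtain ⟨h1, h2⟩ := h e he T hT
  have h3 : 0 ≤ ν T := hν T (hT.trans (Finset.erase_subset _ _))
  have h4 : 0 ≤ ν (insert e T) := hν _ (Finset.insert_subset he (hT.trans (Finset.erase_subset _ _)))
  constructor <;> nlinarith

theorem fk_near (R : Rect) (δ : ℝ) {q : ℝ} (hq : 0 < q) :
    Near |q - 1| (R.edges δ) (fun T => wt R δ q T / Z R δ q) := by
  apply Near.mono (xq_le q hq) (fk_isW R δ hq).1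
  intro e _ T hT
  have he : e ∉ T := fun h => (Finset.mem_erase.mp (hT h)).1 rfl
  have h := ratio_wt R δ hq T e he
  have hZ := Z_pos R δ hq
  constructor
  · rw [← add_div, mul_div_assoc', div_le_div_iff_of_pos_right hZ]
    exact h.1
  · rw [← add_div, mul_div_assoc', div_le_div_iff_of_pos_right hZ]
    exact h.2

/-- the percolation with parameter `1/2 - x` -/
noncomputable def lo (R : Rect) {δ : ℝ} (hδ : 0 < δ) (x : ℝ) : Measure (NonemptyCompacts ℂ) :=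
  genM R hδ (fun T => (∏ _e ∈ T, (1/2 - x)) * ∏ _e ∈ R.edges δ \ T, (1 - (1/2 - x)))

theorem ber_has {Ω : Type} [MeasurableSpace Ω] {μ : Measure Ω} {S : Finset Edg} {p : ℝ}
    {F : Ω → Finset Edg} (h : IsBer μ S (fun _ => p) F) :
    HasW μ S (fun T => (∏ _e ∈ T, p) * ∏ _e ∈ S \ T, (1 - p)) F := h

theorem quant (R : Rect) : ∃ C δ0 : ℝ, 0 < C ∧ 0 < δ0 ∧ ∀ ε : ℝ, 0 < ε → ε ≤ 1 →
    ∀ (δ : ℝ) (hδ : 0 < δ), δ < δ0 → 100 * δ < ε → ∀ x : ℝ, 0 ≤ x → x ≤ 1/2 →
    ∀ ν : Finset Edg → ℝ, IsW (R.edges δ) ν → Near x (R.edges δ) ν →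
    ∀ (f : NonemptyCompacts ℂ → ℝ) (Cb : ℝ), 0 ≤ Cb → (∀ K K', dist (f K) (f K') ≤ Cb) →
    ∀ L : NNReal, LipschitzWith L f →
    |∫ K, f K ∂(genM R hδ ν) - ∫ K, f K ∂(R.law hδ : Measure (NonemptyCompacts ℂ))| ≤
      2 * (L * ε + Cb * (C * (x * δ ^ (-(3/4 : ℝ))) / ε ^ 2)) := by
  obtain ⟨C, δ0, hC, hδ0, H⟩ := window R
  refine ⟨C, δ0, hC, hδ0, ?_⟩
  intro ε hε hε1 δ hδ hlt h100 x hx hx2 ν hν hnear f Cb hCb hb L hL
  have hη : 0 ≤ C * (x * δ ^ (-(3/4 : ℝ))) / ε ^ 2 := by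
    have := Real.rpow_nonneg hδ.le (-(3/4 : ℝ))
    positivity
  -- the dependent model and the lower percolation
  have h1 : |∫ K, f K ∂(genM R hδ ν) - ∫ K, f K ∂(lo R hδ x)| ≤
      L * ε + Cb * (C * (x * δ ^ (-(3/4 : ℝ))) / ε ^ 2) := by
    obtain ⟨Ω, mΩ, μ, Fm, F, Fp, hprob, hFm, hFp, hs1, hs2, hF⟩ :=
      space x hx hx2 (R.edges δ) ν hν.1 hν.2 hnear
    have hc := H ε hε hε1 δ hδ hlt h100 x hx hx2 Ω μ Fm Fp hFm hFp
      (fun ω => (hs1 ω).trans (hs2 ω))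
    have hd : μ {U | ε < dist (R.trace hδ (F U)) (R.trace hδ (Fm U))} ≤
        ENNReal.ofReal (C * (x * δ ^ (-(3/4 : ℝ))) / ε ^ 2) := by
      refine (measure_mono ?_).trans hc
      intro U hU
      exact ⟨F U, Fm U, ⟨hs1 U, hs2 U⟩, ⟨Finset.Subset.refl _, (hs1 U).trans (hs2 U)⟩,
        fun hcl => absurd hU (not_lt.mpr hcl.1)⟩
    have e1 := genM_eq_map hδ hF
    have e2 : lo R hδ x = _ := genM_eq_map hδ (ber_has hFm)
    rw [e1, e2]
    exact int_diff μ (meas_tr hδ hF) (meas_tr hδ (ber_has hFm)) f Cb hCb hb L hL ε hε.le _ hη hd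
  -- critical percolation and the lower percolation
  have h2 : |∫ K, f K ∂(R.law hδ : Measure (NonemptyCompacts ℂ)) - ∫ K, f K ∂(lo R hδ x)| ≤
      L * ε + Cb * (C * (x * δ ^ (-(3/4 : ℝ))) / ε ^ 2) := by
    set μ := Measure.infinitePi (fun _ : Edg => (volume : Measure unitInterval)) with hμ
    let half : unitInterval := ⟨1/2, by norm_num, by norm_num⟩
    let Fc : ℝ → (Edg → unitInterval) → Finset Edg := fun y U =>
      (R.edges δ).filter (fun e => (U e : ℝ) ≤ y)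
    have hber : ∀ y : ℝ, 0 ≤ y → y ≤ 1 → IsBer μ (R.edges δ) (fun _ => y) (Fc y) :=
      fun y h3 h4 => uni _ _ (fun _ => ⟨h3, h4⟩)
    have hsub : ∀ y z : ℝ, y ≤ z → ∀ U, Fc y U ⊆ Fc z U := by
      intro y z hyz U e he
      have he' := Finset.mem_filter.mp he
      exact Finset.mem_filter.mpr ⟨he'.1, he'.2.trans hyz⟩
    have b1 := hber (1/2 - x) (by linarith) (by linarith)
    have b2 := hber (1/2 + x) (by linarith) (by linarith)
    have b3 := hber (1/2) (by norm_num) (by norm_num)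
    have hc := H ε hε hε1 δ hδ hlt h100 x hx hx2 _ μ (Fc (1/2 - x)) (Fc (1/2 + x)) b1 b2
      (hsub _ _ (by linarith))
    have hd : μ {U | ε < dist (R.trace hδ (Fc (1/2) U)) (R.trace hδ (Fc (1/2 - x) U))} ≤
        ENNReal.ofReal (C * (x * δ ^ (-(3/4 : ℝ))) / ε ^ 2) := by
      refine (measure_mono ?_).trans hc
      intro U hU
      exact ⟨Fc (1/2) U, Fc (1/2 - x) U, ⟨hsub _ _ (by linarith) U, hsub _ _ (by linarith) U⟩,
        ⟨Finset.Subset.refl _, hsub _ _ (by linarith) U⟩,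
        fun hcl => absurd hU (not_lt.mpr hcl.1)⟩
    have e1 : (R.law hδ : Measure (NonemptyCompacts ℂ)) =
        μ.map (fun U => R.trace hδ (Fc (1/2) U)) :=
      (law_eq_lawp R hδ (fun _ => half) (fun _ => rfl)).trans
        (lawpM_eq_map ibp hδ (fun _ => half) b3)
    have e2 : lo R hδ x = _ := genM_eq_map hδ (ber_has b1)
    rw [e1, e2]
    exact int_diff μ (meas_tr hδ (ber_has b3)) (meas_tr hδ (ber_has b1)) f Cb hCb hb L hL ε hε.le
      _ hη hd
  calc |∫ K, f K ∂(genM R hδ ν) - ∫ K, f K ∂(R.law hδ : Measure (NonemptyCompacts ℂ))|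
      = |(∫ K, f K ∂(genM R hδ ν) - ∫ K, f K ∂(lo R hδ x)) -
        (∫ K, f K ∂(R.law hδ : Measure (NonemptyCompacts ℂ)) - ∫ K, f K ∂(lo R hδ x))| := by
        congr 1; ring
    _ ≤ |∫ K, f K ∂(genM R hδ ν) - ∫ K, f K ∂(lo R hδ x)| +
        |∫ K, f K ∂(R.law hδ : Measure (NonemptyCompacts ℂ)) - ∫ K, f K ∂(lo R hδ x)| :=
        abs_sub _ _
    _ ≤ _ := by linarith

end Pool.Agent.Helper47K9.FQ
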