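import Pool.Agent.Helper47K9.FQ.Gen

/-!
Dependent percolation near `1/2`: the bounded Lipschitz distance of the laws, and the limits.
-/

set_option autoImplicit false

namespace Pool.Agent.Helper47K9.FQ

open H974 H973 H934E NI38 Finset MeasureTheory TopologicalSpace Filter Topology

theorem bl (R : Rect) : ∃ C δ0 : ℝ, 0 < C ∧ 0 < δ0 ∧ ∀ (δ : ℝ) (hδ : 0 < δ), δ < δ0 →
    ∀ x : ℝ, 0 ≤ x → ∀ ν : Finset Edg → ℝ, IsW (R.edges δ) ν → Near x (R.edges δ) ν →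
    ∀ f : NonemptyCompacts ℂ → ℝ, (∀ K, |f K| ≤ 1) → (∀ K K', |f K - f K'| ≤ dist K K') →
    |∫ K, f K ∂(genM R hδ ν) - ∫ K, f K ∂(R.law hδ : Measure (NonemptyCompacts ℂ))| ≤
      C * ((x * δ ^ (-(3/4 : ℝ))) ^ (1/3 : ℝ) + δ) := by
  obtain ⟨C, δ0, hC, hδ0, H⟩ := quant R
  refine ⟨2 * (101 + 2 * C), min δ0 (1/101), by positivity, by positivity, ?_⟩
  intro δ hδ hlt x hx ν hν hnear f hf1 hfL
  have hlt0 : δ < δ0 := lt_of_lt_of_le hlt (min_le_left _ _)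
  have hlt1 : δ < 1/101 := lt_of_lt_of_le hlt (min_le_right _ _)
  have hd1 : δ ≤ 1 := by linarith
  set u : ℝ := x * δ ^ (-(3/4 : ℝ)) with hu
  have hu0 : 0 ≤ u := mul_nonneg hx (Real.rpow_nonneg hδ.le _)
  have hu3 : 0 ≤ u ^ (1/3 : ℝ) := Real.rpow_nonneg hu0 _
  have hL : LipschitzWith 1 f := by
    apply LipschitzWith.of_dist_le_mul
    intro K K'
    rw [Real.dist_eq, NNReal.coe_one, one_mul]
    exact hfL K K'
  have hcb : ∀ K K', dist (f K) (f K') ≤ 2 := by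
    intro K K'
    rw [Real.dist_eq]
    have h1 := abs_le.mp (hf1 K)
    have h2 := abs_le.mp (hf1 K')
    rw [abs_le]
    constructor <;> linarith [h1.1, h1.2, h2.1, h2.2]
  by_cases hbig : 1 ≤ u
  · -- trivial bound
    have hP : IsProbabilityMeasure (genM R hδ ν) := ⟨genM_univ R hδ hν⟩
    have hfm : Measurable f := hL.continuous.measurable
    have hb : ∀ (P : Measure (NonemptyCompacts ℂ)) [IsProbabilityMeasure P],
        |∫ K, f K ∂P| ≤ 1 := by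
      intro P _
      have h1 := norm_integral_le_of_norm_le_const (μ := P) (f := f) (C := 1)
        (Eventually.of_forall fun K => by rw [Real.norm_eq_abs]; exact hf1 K)
      rw [Real.norm_eq_abs, probReal_univ, mul_one] at h1
      exact h1
    have h1 := abs_le.mp (hb (genM R hδ ν))
    have h2 := abs_le.mp (hb (R.law hδ : Measure (NonemptyCompacts ℂ)))
    have h3 : 1 ≤ u ^ (1/3 : ℝ) := Real.one_le_rpow hbig (by norm_num)
    have h4 : |∫ K, f K ∂(genM R hδ ν) - ∫ K, f K ∂(R.law hδ : Measure (NonemptyCompacts ℂ))| ≤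
        2 := by
      rw [abs_le]
      constructor <;> linarith [h1.1, h1.2, h2.1, h2.2]
    refine h4.trans ?_
    have h5 : (1 : ℝ) ≤ u ^ (1/3 : ℝ) + δ := by linarith
    calc (2 : ℝ) ≤ 2 * (101 + 2 * C) * 1 := by linarith
      _ ≤ _ := mul_le_mul_of_nonneg_left h5 (by positivity)
  · push Not at hbig
    have hu31 : u ^ (1/3 : ℝ) < 1 := Real.rpow_lt_one hu0 hbig (by norm_num)
    set ε : ℝ := max (u ^ (1/3 : ℝ)) (101 * δ) with hε
    have hε0 : 0 < ε := lt_of_lt_of_le (by positivity) (le_max_right _ _)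
    have hε1 : ε ≤ 1 := max_le hu31.le (by linarith)
    have h100 : 100 * δ < ε := lt_of_lt_of_le (by linarith) (le_max_right _ _)
    have hx2 : x ≤ 1/2 := by
      have h1 : x = u * δ ^ (3/4 : ℝ) := by
        rw [hu, mul_assoc, ← Real.rpow_add hδ]
        norm_num
      have h2 : δ ^ (3/4 : ℝ) ≤ (1/16 : ℝ) ^ (3/4 : ℝ) :=
        Real.rpow_le_rpow hδ.le (by linarith) (by norm_num)
      have h3 : (1/16 : ℝ) ^ (3/4 : ℝ) = 1/8 := by
        rw [show (1/16 : ℝ) = (1/2) ^ (4 : ℝ) by norm_num, ← Real.rpow_mul (by norm_num)]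
        norm_num
      rw [h3] at h2
      have h4 : 0 ≤ δ ^ (3/4 : ℝ) := Real.rpow_nonneg hδ.le _
      rw [h1]
      nlinarith
    have key := H ε hε0 hε1 δ hδ hlt0 h100 x hx hx2 ν hν hnear f 2 (by norm_num) hcb 1 hL
    refine key.trans ?_
    rw [NNReal.coe_one, one_mul]
    have h1 : u / ε ^ 2 ≤ u ^ (1/3 : ℝ) := by
      rw [div_le_iff₀ (by positivity)]
      have h2 : (u ^ (1/3 : ℝ)) ^ 2 ≤ ε ^ 2 := by
        apply pow_le_pow_left₀ hu3 (le_max_left _ _)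
      have h3 : u ^ (1/3 : ℝ) * (u ^ (1/3 : ℝ)) ^ 2 = u := by
        have h4 : u ^ (1/3 : ℝ) * (u ^ (1/3 : ℝ)) ^ 2 = (u ^ (1/3 : ℝ)) ^ (3 : ℕ) := by ring
        rw [h4, ← Real.rpow_natCast, ← Real.rpow_mul hu0]
        norm_num
      calc u = u ^ (1/3 : ℝ) * (u ^ (1/3 : ℝ)) ^ 2 := h3.symm
        _ ≤ _ := mul_le_mul_of_nonneg_left h2 hu3
    have h2 : ε ≤ u ^ (1/3 : ℝ) + 101 * δ := max_le (by linarith) (by linarith)
    have h3 : C * u / ε ^ 2 ≤ C * u ^ (1/3 : ℝ) := by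
      rw [mul_div_assoc]
      exact mul_le_mul_of_nonneg_left h1 hC.le
    have h4 : 0 ≤ C * δ := by positivity
    nlinarith

theorem key_lim (R : Rect) (δ : ℕ → ℝ) (hδ : ∀ n, 0 < δ n)
    (hδ0 : Tendsto δ atTop (𝓝 0)) (ν : ℕ → Finset Edg → ℝ) (hν : ∀ n, IsW (R.edges (δ n)) (ν n))
    (x : ℕ → ℝ) (hx : ∀ n, 0 ≤ x n) (hnear : ∀ n, Near (x n) (R.edges (δ n)) (ν n))
    (hw : Tendsto (fun n => x n * δ n ^ (-(3/4 : ℝ))) atTop (𝓝 0))
    (f : NonemptyCompacts ℂ → ℝ) (hb : ∃ C : ℝ, ∀ x y, dist (f x) (f y) ≤ C)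
    (hL : ∃ L, LipschitzWith L f) :
    Tendsto (fun n => ∫ K, f K ∂(genM R (hδ n) (ν n)) -
        ∫ K, f K ∂(R.law (hδ n) : Measure (NonemptyCompacts ℂ))) atTop (𝓝 0) := by
  obtain ⟨Cb, hb⟩ := hb
  obtain ⟨L, hL⟩ := hL
  have hCb : 0 ≤ Cb := le_trans dist_nonneg (hb (R.trace (hδ 0) ∅) (R.trace (hδ 0) ∅))
  have hLn : (0:ℝ) ≤ L := NNReal.coe_nonneg L
  obtain ⟨C, δ0, hC, hδ0', H⟩ := quant R
  rw [Metric.tendsto_nhds]
  intro ε' hε'
  set ε : ℝ := min 1 (ε' / (8 * (L + 1))) with hε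
  have hε0 : 0 < ε := by positivity
  have hε1 : ε ≤ 1 := min_le_left _ _
  have hε2 : (L : ℝ) * ε ≤ ε' / 8 := by
    have h1 : ε ≤ ε' / (8 * (L + 1)) := min_le_right _ _
    calc (L : ℝ) * ε ≤ L * (ε' / (8 * (L + 1))) := mul_le_mul_of_nonneg_left h1 hLn
      _ ≤ ε' / 8 := by
        rw [mul_div_assoc', div_le_div_iff₀ (by positivity) (by norm_num)]
        nlinarith
  have ev1 : ∀ᶠ n in atTop, δ n < δ0 := hδ0.eventually_lt_const hδ0'
  have ev2 : ∀ᶠ n in atTop, δ n < ε / 100 := hδ0.eventually_lt_const (by positivity)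
  have ev3 : ∀ᶠ n in atTop, δ n < 1 := hδ0.eventually_lt_const one_pos
  have ev4 : ∀ᶠ n in atTop, x n * δ n ^ (-(3/4:ℝ)) <
      min (1/2) (ε' * ε ^ 2 / (8 * (Cb * C + 1))) := hw.eventually_lt_const (by positivity)
  filter_upwards [ev1, ev2, ev3, ev4] with n h1 h2 h3 h4
  have hδp : 1 ≤ δ n ^ (-(3/4:ℝ)) :=
    Real.one_le_rpow_of_pos_of_le_one_of_nonpos (hδ n) h3.le (by norm_num)
  have h4a : x n * δ n ^ (-(3/4:ℝ)) < 1/2 := lt_of_lt_of_le h4 (min_le_left _ _)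
  have h4b : x n * δ n ^ (-(3/4:ℝ)) < ε' * ε ^ 2 / (8 * (Cb * C + 1)) :=
    lt_of_lt_of_le h4 (min_le_right _ _)
  have hx12 : x n ≤ 1/2 := by
    have : x n * 1 ≤ x n * δ n ^ (-(3/4:ℝ)) := mul_le_mul_of_nonneg_left hδp (hx n)
    linarith
  have key := H ε hε0 hε1 (δ n) (hδ n) h1 (by linarith) (x n) (hx n) hx12 (ν n) (hν n)
    (hnear n) f Cb hCb hb L hL
  rw [Real.dist_eq, sub_zero]
  refine lt_of_le_of_lt key ?_
  have h5 : Cb * (C * (x n * δ n ^ (-(3/4 : ℝ))) / ε ^ 2) ≤ ε' / 8 := by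
    rw [← mul_div_assoc, div_le_iff₀ (by positivity), ← mul_assoc]
    calc Cb * C * (x n * δ n ^ (-(3/4 : ℝ))) ≤ Cb * C * (ε' * ε ^ 2 / (8 * (Cb * C + 1))) :=
          mul_le_mul_of_nonneg_left h4b.le (by positivity)
      _ ≤ ε' / 8 * ε ^ 2 := by
        rw [mul_div_assoc', div_le_iff₀ (by positivity)]
        have h6 : 0 ≤ Cb * C := by positivity
        have h7 : 0 ≤ ε' * ε ^ 2 := by positivity
        nlinarith
  linarith

/-- In the window the laws have the same limits as that of critical percolation. -/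
theorem limG (R : Rect) (δ : ℕ → ℝ) (hδ : ∀ n, 0 < δ n)
    (hδ0 : Tendsto δ atTop (𝓝 0)) (ν : ℕ → Finset Edg → ℝ) (hν : ∀ n, IsW (R.edges (δ n)) (ν n))
    (x : ℕ → ℝ) (hx : ∀ n, 0 ≤ x n) (hnear : ∀ n, Near (x n) (R.edges (δ n)) (ν n))
    (hw : Tendsto (fun n => x n * δ n ^ (-(3/4 : ℝ))) atTop (𝓝 0))
    (μ : ProbabilityMeasure (NonemptyCompacts ℂ)) :
    Tendsto (fun n => genLaw R (hδ n) (ν n) (hν n)) atTop (𝓝 μ) ↔
      Tendsto (fun n => R.law (hδ n)) atTop (𝓝 μ) := by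
  have key := key_lim R δ hδ hδ0 ν hν x hx hnear hw
  rw [tendsto_iff_forall_lipschitz_integral_tendsto,
    tendsto_iff_forall_lipschitz_integral_tendsto]
  constructor
  · intro h f hb hL
    have h1 := (h f hb hL).sub (key f hb hL)
    have h2 : ∀ n, ∫ ω, f ω ∂(genLaw R (hδ n) (ν n) (hν n) : Measure (NonemptyCompacts ℂ)) =
        ∫ K, f K ∂(genM R (hδ n) (ν n)) := fun n => rfl
    simpa [h2] using h1
  · intro h f hb hL
    have h1 := (h f hb hL).add (key f hb hL)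
    have h2 : ∀ n, ∫ ω, f ω ∂(genLaw R (hδ n) (ν n) (hν n) : Measure (NonemptyCompacts ℂ)) =
        ∫ K, f K ∂(genM R (hδ n) (ν n)) := fun n => rfl
    simpa [h2] using h1

end Pool.Agent.Helper47K9.FQ
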