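import Pool.Agent.Helper38K9.NI.Stm

/-!
The FK (random cluster) model with parameter `q` at its self-dual point in a rectangle with
Dobrushin boundary conditions, and the law of the trace of its interface.
-/

set_option autoImplicit false

namespace Pool.Agent.Helper47K9.FQ

open H974 H973 H934E Finset MeasureTheory TopologicalSpace Filter Topology

/-- The number of clusters of the configuration `F` (the set of open edges) at mesh `δ`: the number
of connected components of the graph whose vertices are those of the discrete rectangle and whose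
edges are those of `F` and those of the wired arc, so that the wired arc is contained in one
cluster. -/
noncomputable def ncl (R : Rect) (δ : ℝ) (F : Finset Edg) : ℕ :=
  open Classical in
  ((R.verts δ).image (fun v => {w : Vtx | Reach (↑F ∪ R.wired δ) v w})).card

/-- The self-dual point `√q / (1 + √q)`. -/
noncomputable def psd (q : ℝ) : ℝ := Real.sqrt q / (1 + Real.sqrt q)

/-- The weight `(p / (1 - p)) ^ |F| * q ^ (number of clusters of F)` at the self-dual point. -/
noncomputable def wt (R : Rect) (δ q : ℝ) (F : Finset Edg) : ℝ :=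
  (psd q / (1 - psd q)) ^ F.card * q ^ ncl R δ F

/-- The partition function. -/
noncomputable def Z (R : Rect) (δ q : ℝ) : ℝ := ∑ F ∈ (R.edges δ).powerset, wt R δ q F

theorem psd_ratio {q : ℝ} (hq : 0 < q) : psd q / (1 - psd q) = Real.sqrt q := by
  have h : 0 < Real.sqrt q := Real.sqrt_pos.mpr hq
  unfold psd
  field_simp
  ring

theorem wt_pos (R : Rect) (δ : ℝ) {q : ℝ} (hq : 0 < q) (F : Finset Edg) : 0 < wt R δ q F := by
  unfold wt
  rw [psd_ratio hq]
  have h : 0 < Real.sqrt q := Real.sqrt_pos.mpr hq
  positivity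

theorem Z_pos (R : Rect) (δ : ℝ) {q : ℝ} (hq : 0 < q) : 0 < Z R δ q :=
  Finset.sum_pos (fun F _ => wt_pos R δ hq F) ⟨∅, Finset.empty_mem_powerset _⟩

/-- The law of the trace of the interface of the FK model at mesh `δ`, as a measure. -/
noncomputable def fkM (R : Rect) {δ : ℝ} (hδ : 0 < δ) (q : ℝ) : Measure (NonemptyCompacts ℂ) :=
  ∑ F ∈ (R.edges δ).powerset,
    ENNReal.ofReal (wt R δ q F / Z R δ q) • Measure.dirac (R.trace hδ F)

theorem sum_nu (R : Rect) (δ : ℝ) {q : ℝ} (hq : 0 < q) :
    ∑ F ∈ (R.edges δ).powerset, wt R δ q F / Z R δ q = 1 := by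
  rw [← Finset.sum_div]
  exact div_self (Z_pos R δ hq).ne'

theorem fkM_univ (R : Rect) {δ : ℝ} (hδ : 0 < δ) {q : ℝ} (hq : 0 < q) :
    fkM R hδ q Set.univ = 1 := by
  unfold fkM
  rw [Measure.finsetSum_apply]
  have h1 : ∀ F ∈ (R.edges δ).powerset,
      (ENNReal.ofReal (wt R δ q F / Z R δ q) • Measure.dirac (R.trace hδ F)) Set.univ =
      ENNReal.ofReal (wt R δ q F / Z R δ q) := by
    intro F _
    rw [Measure.smul_apply, measure_univ, smul_eq_mul, mul_one]
  rw [Finset.sum_congr rfl h1, ← ENNReal.ofReal_sum_of_nonneg, sum_nu R δ hq, ENNReal.ofReal_one]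
  intro F _
  exact div_nonneg (wt_pos R δ hq F).le (Z_pos R δ hq).le

/-- The law of the trace of the interface of the FK model with parameter `q` at its self-dual
point, at mesh `δ`. -/
noncomputable def fkLaw (R : Rect) {δ : ℝ} (hδ : 0 < δ) {q : ℝ} (hq : 0 < q) :
    ProbabilityMeasure (NonemptyCompacts ℂ) := ⟨fkM R hδ q, ⟨fkM_univ R hδ hq⟩⟩

/-! ### The number of clusters changes by at most one -/

theorem cl_eq {G : Set Edg} {u v : Vtx} (h : Reach G u v) :
    {w : Vtx | Reach G u w} = {w : Vtx | Reach G v w} := by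
  ext w
  exact ⟨fun h1 => h.symm.trans h1, fun h1 => h.trans h1⟩

theorem cl_image {G G' : Set Edg} (hG : G ⊆ G') (v : Vtx) :
    {w : Vtx | ∃ u ∈ {u : Vtx | Reach G v u}, Reach G' u w} = {w : Vtx | Reach G' v w} := by
  ext w
  constructor
  · rintro ⟨u, hu, h⟩
    exact (Reach.mono hG hu).trans h
  · intro h
    exact ⟨v, Reach.refl _ _, h⟩

theorem card_cl (V : Finset Vtx) (G : Set Edg) (e : Edg) :
    open Classical in
    (V.image (fun v => {w : Vtx | Reach (insert e G) v w})).card ≤
      (V.image (fun v => {w : Vtx | Reach G v w})).card ∧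
    (V.image (fun v => {w : Vtx | Reach G v w})).card ≤
      (V.image (fun v => {w : Vtx | Reach (insert e G) v w})).card + 1 := by
  classical
  have hsub : G ⊆ insert e G := Set.subset_insert e G
  let φ : Set Vtx → Set Vtx := fun C => {w : Vtx | ∃ u ∈ C, Reach (insert e G) u w}
  have hφ : ∀ v, φ {w : Vtx | Reach G v w} = {w : Vtx | Reach (insert e G) v w} :=
    fun v => cl_image hsub v
  constructor
  · have h1 : V.image (fun v => {w : Vtx | Reach (insert e G) v w}) =
        (V.image (fun v => {w : Vtx | Reach G v w})).image φ := by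
      rw [Finset.image_image]
      apply Finset.image_congr
      intro v _
      exact (hφ v).symm
    rw [h1]
    exact Finset.card_image_le
  · have h2 : ((V.image (fun v => {w : Vtx | Reach G v w})).erase
        {w : Vtx | Reach G (tgt e) w}).card ≤
        (V.image (fun v => {w : Vtx | Reach (insert e G) v w})).card := by
      apply Finset.card_le_card_of_injOn φ
      · intro C hC
        obtain ⟨h3, h4⟩ := Finset.mem_erase.mp (Finset.mem_coe.mp hC)
        obtain ⟨v, hv, rfl⟩ := Finset.mem_image.mp h4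
        rw [hφ v]
        exact Finset.mem_coe.mpr (Finset.mem_image_of_mem _ hv)
      · intro C hC C' hC' hCC
        obtain ⟨h3, h4⟩ := Finset.mem_erase.mp (Finset.mem_coe.mp hC)
        obtain ⟨h5, h6⟩ := Finset.mem_erase.mp (Finset.mem_coe.mp hC')
        obtain ⟨u, hu, rfl⟩ := Finset.mem_image.mp h4
        obtain ⟨v, hv, rfl⟩ := Finset.mem_image.mp h6
        rw [hφ u, hφ v] at hCC
        have h7 : Reach (insert e G) u v := by
          have : v ∈ {w : Vtx | Reach (insert e G) v w} := Reach.refl _ _
          rw [← hCC] at this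
          exact this
        rcases reach_insert.mp h7 with h8 | ⟨_, h8⟩ | ⟨h8, _⟩
        · exact cl_eq h8
        · exact absurd (cl_eq h8).symm h5
        · exact absurd (cl_eq h8) h3
    have h3 := Finset.pred_card_le_card_erase (s := V.image (fun v => {w : Vtx | Reach G v w}))
      (a := {w : Vtx | Reach G (tgt e) w})
    omega

theorem ncl_insert (R : Rect) (δ : ℝ) (F : Finset Edg) (e : Edg) :
    ncl R δ (insert e F) = ncl R δ F ∨ ncl R δ F = ncl R δ (insert e F) + 1 := by
  have h := card_cl (R.verts δ) (↑F ∪ R.wired δ) e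
  have h1 : (insert e (↑F ∪ R.wired δ) : Set Edg) = ↑(insert e F) ∪ R.wired δ := by
    rw [Finset.coe_insert, Set.insert_union]
  rw [h1] at h
  unfold ncl
  omega

/-- The distance of the conditional probabilities from `1 / 2`. -/
noncomputable def xq (q : ℝ) : ℝ := |Real.sqrt q - 1| / (2 * (Real.sqrt q + 1))

theorem xq_nonneg (q : ℝ) : 0 ≤ xq q := by
  unfold xq
  have := Real.sqrt_nonneg q
  positivity

theorem xq_le_half (q : ℝ) : xq q ≤ 1 / 2 := by
  unfold xq
  have := Real.sqrt_nonneg q
  rw [div_le_div_iff₀ (by positivity) (by norm_num)]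
  have h : |Real.sqrt q - 1| ≤ Real.sqrt q + 1 := by
    rw [abs_le]; constructor <;> linarith
  linarith

theorem xq_le (q : ℝ) (hq : 0 < q) : xq q ≤ |q - 1| := by
  unfold xq
  have h := Real.sqrt_nonneg q
  have h1 : q - 1 = (Real.sqrt q - 1) * (Real.sqrt q + 1) := by
    have := Real.mul_self_sqrt hq.le
    nlinarith
  rw [h1, abs_mul, abs_of_nonneg (by positivity : 0 ≤ Real.sqrt q + 1),
    div_le_iff₀ (by positivity)]
  have h2 := abs_nonneg (Real.sqrt q - 1)
  have h3 : 1 ≤ (Real.sqrt q + 1) * (2 * (Real.sqrt q + 1)) := by nlinarith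
  calc |Real.sqrt q - 1| = |Real.sqrt q - 1| * 1 := (mul_one _).symm
    _ ≤ |Real.sqrt q - 1| * ((Real.sqrt q + 1) * (2 * (Real.sqrt q + 1))) :=
        mul_le_mul_of_nonneg_left h3 h2
    _ = _ := by ring

theorem ratio_wt (R : Rect) (δ : ℝ) {q : ℝ} (hq : 0 < q) (F : Finset Edg) (e : Edg)
    (he : e ∉ F) :
    (1/2 - xq q) * (wt R δ q F + wt R δ q (insert e F)) ≤ wt R δ q (insert e F) ∧
    wt R δ q (insert e F) ≤ (1/2 + xq q) * (wt R δ q F + wt R δ q (insert e F)) := by
  have hs : 0 < Real.sqrt q := Real.sqrt_pos.mpr hq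
  have hw := wt_pos R δ hq F
  have hw' := wt_pos R δ hq (insert e F)
  set s := Real.sqrt q with hs_def
  have hsq : s * s = q := Real.mul_self_sqrt hq.le
  have hx1 : (s - 1) / (2 * (s + 1)) ≤ xq q := by
    unfold xq
    exact div_le_div_of_nonneg_right (le_abs_self _) (by positivity)
  have hx2 : -(s - 1) / (2 * (s + 1)) ≤ xq q := by
    unfold xq
    exact div_le_div_of_nonneg_right (neg_le_abs _) (by positivity)
  have key : wt R δ q (insert e F) = s * wt R δ q F ∨ s * wt R δ q (insert e F) = wt R δ q F := by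
    unfold wt
    rw [psd_ratio hq, Finset.card_insert_of_notMem he, ← hs_def]
    rcases ncl_insert R δ F e with h | h
    · left
      rw [h]
      ring
    · right
      rw [h, pow_succ, pow_succ, ← hsq]
      ring
  have e1 : (s - 1) / (2 * (s + 1)) + 1/2 = s / (s + 1) := by
    field_simp
    ring
  have e2 : -(s - 1) / (2 * (s + 1)) + 1/2 = 1 / (s + 1) := by
    field_simp
    ring
  have f1 : s / (s + 1) ≤ 1/2 + xq q := by linarith
  have f2 : 1 / (s + 1) ≤ 1/2 + xq q := by linarith
  have f3 : s / (s + 1) + 1 / (s + 1) = 1 := by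
    field_simp
  set w := wt R δ q F
  set w' := wt R δ q (insert e F)
  rcases key with h | h
  · have g1 : w' = s / (s + 1) * (w + w') := by
      rw [h]; field_simp; ring
    have g2 : 0 < w + w' := by linarith
    constructor
    · calc (1/2 - xq q) * (w + w') ≤ s / (s + 1) * (w + w') :=
            mul_le_mul_of_nonneg_right (by linarith) g2.le
        _ = w' := g1.symm
    · calc w' = s / (s + 1) * (w + w') := g1
        _ ≤ _ := mul_le_mul_of_nonneg_right f1 g2.le
  · have g1 : w' = 1 / (s + 1) * (w + w') := by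
      rw [← h]; field_simp
    have g2 : 0 < w + w' := by linarith
    constructor
    · calc (1/2 - xq q) * (w + w') ≤ 1 / (s + 1) * (w + w') :=
            mul_le_mul_of_nonneg_right (by linarith) g2.le
        _ = w' := g1.symm
    · calc w' = 1 / (s + 1) * (w + w') := g1
        _ ≤ _ := mul_le_mul_of_nonneg_right f2 g2.le

end Pool.Agent.Helper47K9.FQ
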