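import Pool.Agent.Helper47K9.FQ.Cou
import Pool.Agent.Helper47K9.FQ.Mod
import Pool.Agent.Helper38K9.NI.Law

/-!
The coupling of the FK model for `q` close to one with percolation, and the limits of the laws.
-/

set_option autoImplicit false

namespace Pool.Agent.Helper47K9.FQ

open H974 H973 H934E NI38 Finset MeasureTheory TopologicalSpace Filter Topology

/-- `F` has the law `ν` on the subsets of `S`. -/
def HasW {Ω : Type} [MeasurableSpace Ω] (μ : Measure Ω) (S : Finset Edg) (ν : Finset Edg → ℝ)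
    (F : Ω → Finset Edg) : Prop :=
  (∀ ω, F ω ⊆ S) ∧ ∀ T : Finset Edg, T ⊆ S → MeasurableSet {ω | F ω = T} ∧
    μ {ω | F ω = T} = ENNReal.ofReal (ν T)

theorem hasW_meas {Ω : Type} [MeasurableSpace Ω] {μ : Measure Ω} {S : Finset Edg}
    {ν : Finset Edg → ℝ} {F : Ω → Finset Edg} (hF : HasW μ S ν F) (A : Finset Edg → Prop) :
    MeasurableSet {ω | A (F ω)} := by
  classical
  have hset : {ω | A (F ω)} = ⋃ T ∈ S.powerset.filter A, {ω | F ω = T} := by
    ext ω
    simp only [Set.mem_ofPred_eq, Set.mem_iUnion, Finset.mem_filter, Finset.mem_powerset,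
      exists_prop]
    constructor
    · intro h
      exact ⟨F ω, ⟨hF.1 ω, h⟩, rfl⟩
    · rintro ⟨T, ⟨_, h2⟩, h3⟩
      rw [h3]
      exact h2
  rw [hset]
  exact Finset.measurableSet_biUnion _ (fun T hT =>
    (hF.2 T (Finset.mem_powerset.mp (Finset.mem_filter.mp hT).1)).1)

theorem hasW_prob {Ω : Type} [MeasurableSpace Ω] {μ : Measure Ω} {S : Finset Edg}
    {ν : Finset Edg → ℝ} {F : Ω → Finset Edg} (hF : HasW μ S ν F) (A : Finset Edg → Prop)
    [DecidablePred A] :
    μ {ω | A (F ω)} = ∑ T ∈ S.powerset.filter A, ENNReal.ofReal (ν T) := by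
  have hset : {ω | A (F ω)} = ⋃ T ∈ S.powerset.filter A, {ω | F ω = T} := by
    ext ω
    simp only [Set.mem_ofPred_eq, Set.mem_iUnion, Finset.mem_filter, Finset.mem_powerset,
      exists_prop]
    constructor
    · intro h
      exact ⟨F ω, ⟨hF.1 ω, h⟩, rfl⟩
    · rintro ⟨T, ⟨_, h2⟩, h3⟩
      rw [h3]
      exact h2
  rw [hset, measure_biUnion_finset ?_ (fun T hT =>
    (hF.2 T (Finset.mem_powerset.mp (Finset.mem_filter.mp hT).1)).1)]
  · exact Finset.sum_congr rfl (fun T hT =>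
      (hF.2 T (Finset.mem_powerset.mp (Finset.mem_filter.mp hT).1)).2)
  · intro T _ U _ hTU
    rw [Function.onFun, Set.disjoint_left]
    intro ω h1 h2
    exact hTU (h1.symm.trans h2)

theorem meas_tr {Ω : Type} [MeasurableSpace Ω] {μ : Measure Ω} {R : Rect} {δ : ℝ} (hδ : 0 < δ)
    {ν : Finset Edg → ℝ} {F : Ω → Finset Edg} (hF : HasW μ (R.edges δ) ν F) :
    Measurable (fun ω => R.trace hδ (F ω)) := by
  intro G _
  exact hasW_meas hF (fun F => R.trace hδ F ∈ G)

theorem fkM_eq_map {Ω : Type} [MeasurableSpace Ω] {μ : Measure Ω} {R : Rect} {δ : ℝ} (hδ : 0 < δ)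
    {q : ℝ} {F : Ω → Finset Edg}
    (hF : HasW μ (R.edges δ) (fun T => wt R δ q T / Z R δ q) F) :
    fkM R hδ q = μ.map (fun ω => R.trace hδ (F ω)) := by
  classical
  ext G hG
  rw [Measure.map_apply (meas_tr hδ hF) hG]
  have h1 := hasW_prob hF (fun F => R.trace hδ F ∈ G)
  change fkM R hδ q G = μ {ω | R.trace hδ (F ω) ∈ G}
  rw [h1]
  unfold fkM
  rw [Measure.finsetSum_apply, Finset.sum_filter]
  apply Finset.sum_congr rfl
  intro T _
  rw [Measure.smul_apply, Measure.dirac_apply' _ hG, smul_eq_mul]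
  by_cases h : R.trace hδ T ∈ G
  · rw [if_pos h, Set.indicator_of_mem h]; simp
  · rw [if_neg h, Set.indicator_of_notMem h]; simp

theorem space (x : ℝ) (hx : 0 ≤ x) (hx2 : x ≤ 1/2) (S : Finset Edg) (ν : Finset Edg → ℝ)
    (hpos : ∀ T ⊆ S, 0 ≤ ν T) (hsum : ∑ T ∈ S.powerset, ν T = 1)
    (hrat : ∀ e ∈ S, ∀ T ⊆ S.erase e, (1/2 - x) * (ν T + ν (insert e T)) ≤ ν (insert e T) ∧
        ν (insert e T) ≤ (1/2 + x) * (ν T + ν (insert e T))) :
    ∃ (Ω : Type) (_ : MeasurableSpace Ω) (μ : Measure Ω) (Fm F Fp : Ω → Finset Edg),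
      IsProbabilityMeasure μ ∧ IsBer μ S (fun _ => 1/2 - x) Fm ∧ IsBer μ S (fun _ => 1/2 + x) Fp ∧
      (∀ ω, Fm ω ⊆ F ω) ∧ (∀ ω, F ω ⊆ Fp ω) ∧ HasW μ S ν F := by
  classical
  obtain ⟨J, hJ0, hJs, hJ1, hJ2, hJ3⟩ := coupling x hx hx2 S ν hpos hsum hrat
  let Ω := Finset Edg × Finset Edg × Finset Edg
  let good : Ω → Prop := fun ω => ω.1 ⊆ ω.2.1 ∧ ω.2.1 ⊆ ω.2.2 ∧ ω.2.2 ⊆ S
  let P : Finset Ω := S.powerset ×ˢ (S.powerset ×ˢ S.powerset)
  let mΩ : MeasurableSpace Ω := ⊤
  let μ : @Measure Ω mΩ := ∑ ω ∈ P, ENNReal.ofReal (J ω.1 ω.2.1 ω.2.2) • @Measure.dirac Ω mΩ ω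
  have hμ : ∀ A : Ω → Prop, μ {ω | A ω} =
      ENNReal.ofReal (∑ ω ∈ P, if A ω then J ω.1 ω.2.1 ω.2.2 else 0) := by
    intro A
    rw [ENNReal.ofReal_sum_of_nonneg (by
      intro ω _
      split_ifs
      · exact hJ0 _ _ _
      · exact le_rfl)]
    change (∑ ω ∈ P, ENNReal.ofReal (J ω.1 ω.2.1 ω.2.2) • @Measure.dirac Ω mΩ ω) {ω | A ω} = _
    rw [Measure.finsetSum_apply]
    apply Finset.sum_congr rfl
    intro ω _
    rw [Measure.smul_apply, Measure.dirac_apply' _ (MeasurableSpace.measurableSet_top), smul_eq_mul]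
    by_cases h : A ω
    · rw [if_pos h, Set.indicator_of_mem (show ω ∈ {ω | A ω} from h)]; simp
    · rw [if_neg h, Set.indicator_of_notMem (show ω ∉ {ω | A ω} from h)]; simp
  have tri : ∀ g : Finset Edg → Finset Edg → Finset Edg → ℝ,
      ∑ ω ∈ P, g ω.1 ω.2.1 ω.2.2 =
        ∑ a ∈ S.powerset, ∑ b ∈ S.powerset, ∑ d ∈ S.powerset, g a b d := by
    intro g
    rw [Finset.sum_product]
    apply Finset.sum_congr rfl
    intro a _
    rw [Finset.sum_product]
  -- the three random sets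
  refine ⟨Ω, mΩ, μ, fun ω => if good ω then ω.1 else ∅, fun ω => if good ω then ω.2.1 else ∅,
    fun ω => if good ω then ω.2.2 else ∅, ?_, ⟨?_, ?_⟩, ⟨?_, ?_⟩, ?_, ?_, ⟨?_, ?_⟩⟩
  · constructor
    have h1 := hμ (fun _ => True)
    simp only [Set.ofPred_true, if_true] at h1
    rw [h1, tri (fun a b d => J a b d)]
    have h2 : ∑ a ∈ S.powerset, ∑ b ∈ S.powerset, ∑ d ∈ S.powerset, J a b d =
        ∑ b ∈ S.powerset, ν b := by
      rw [Finset.sum_comm]
      apply Finset.sum_congr rfl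
      intro b hb
      exact hJ2 b (Finset.mem_powerset.mp hb)
    rw [h2, hsum, ENNReal.ofReal_one]
  · intro ω
    beta_reduce
    split_ifs with h
    · exact h.1.trans (h.2.1.trans h.2.2)
    · exact Finset.empty_subset _
  · intro T hT
    refine ⟨MeasurableSpace.measurableSet_top, ?_⟩
    rw [hμ]
    congr 1
    beta_reduce
    refine Eq.trans (Finset.sum_congr rfl (fun ω _ => ?_))
      (Eq.trans (tri (fun a b d => if a = T then J a b d else 0)) ?_)
    · by_cases hJ : J ω.1 ω.2.1 ω.2.2 = 0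
      · simp [hJ]
      · have hg : good ω := hJs _ _ _ hJ
        rw [if_pos hg]
        by_cases hT' : ω.1 = T
        · rw [if_pos hT', if_pos hT']
        · rw [if_neg hT', if_neg hT']
    have h2 := hJ1 T hT
    unfold pw at h2
    rw [← h2]
    rw [Finset.sum_eq_single T]
    · simp
    · intro a _ ha
      simp [ha]
    · intro h; exact absurd (Finset.mem_powerset.mpr hT) h
  · intro ω
    beta_reduce
    split_ifs with h
    · exact h.2.2
    · exact Finset.empty_subset _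
  · intro T hT
    refine ⟨MeasurableSpace.measurableSet_top, ?_⟩
    rw [hμ]
    congr 1
    beta_reduce
    refine Eq.trans (Finset.sum_congr rfl (fun ω _ => ?_))
      (Eq.trans (tri (fun a b d => if d = T then J a b d else 0)) ?_)
    · by_cases hJ : J ω.1 ω.2.1 ω.2.2 = 0
      · simp [hJ]
      · have hg : good ω := hJs _ _ _ hJ
        rw [if_pos hg]
        by_cases hT' : ω.2.2 = T
        · rw [if_pos hT', if_pos hT']
        · rw [if_neg hT', if_neg hT']
    have h2 := hJ3 T hT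
    unfold pw at h2
    rw [← h2]
    apply Finset.sum_congr rfl
    intro a _
    apply Finset.sum_congr rfl
    intro b _
    rw [Finset.sum_eq_single T]
    · simp
    · intro d _ hd
      simp [hd]
    · intro h; exact absurd (Finset.mem_powerset.mpr hT) h
  · intro ω
    beta_reduce
    split_ifs with h
    · exact h.1
    · exact Finset.empty_subset _
  · intro ω
    beta_reduce
    split_ifs with h
    · exact h.2.1
    · exact Finset.empty_subset _
  · intro ω
    beta_reduce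
    split_ifs with h
    · exact h.2.1.trans h.2.2
    · exact Finset.empty_subset _
  · intro T hT
    refine ⟨MeasurableSpace.measurableSet_top, ?_⟩
    rw [hμ]
    congr 1
    beta_reduce
    refine Eq.trans (Finset.sum_congr rfl (fun ω _ => ?_))
      (Eq.trans (tri (fun a b d => if b = T then J a b d else 0)) ?_)
    · by_cases hJ : J ω.1 ω.2.1 ω.2.2 = 0
      · simp [hJ]
      · have hg : good ω := hJs _ _ _ hJ
        rw [if_pos hg]
        by_cases hT' : ω.2.1 = T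
        · rw [if_pos hT', if_pos hT']
        · rw [if_neg hT', if_neg hT']
    rw [← hJ2 T hT]
    apply Finset.sum_congr rfl
    intro a _
    rw [Finset.sum_eq_single T]
    · simp
    · intro b _ hb
      simp [hb]
    · intro h; exact absurd (Finset.mem_powerset.mpr hT) h

theorem fk_space (R : Rect) (δ : ℝ) {q : ℝ} (hq : 0 < q) :
    ∃ (Ω : Type) (_ : MeasurableSpace Ω) (μ : Measure Ω) (Fm F Fp : Ω → Finset Edg),
      IsProbabilityMeasure μ ∧ IsBer μ (R.edges δ) (fun _ => 1/2 - xq q) Fm ∧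
      IsBer μ (R.edges δ) (fun _ => 1/2 + xq q) Fp ∧
      (∀ ω, Fm ω ⊆ F ω) ∧ (∀ ω, F ω ⊆ Fp ω) ∧
      HasW μ (R.edges δ) (fun T => wt R δ q T / Z R δ q) F := by
  apply space (xq q) (xq_nonneg q) (xq_le_half q)
  · intro T _
    exact (div_pos (wt_pos R δ hq T) (Z_pos R δ hq)).le
  · exact sum_nu R δ hq
  · intro e _ T hT
    have he : e ∉ T := fun h => (Finset.mem_erase.mp (hT h)).1 rfl
    have h := ratio_wt R δ hq T e he
    have hZ := Z_pos R δ hq
    constructor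
    · rw [← add_div, mul_div_assoc', div_le_div_iff_of_pos_right hZ]
      exact h.1
    · rw [← add_div, mul_div_assoc', div_le_div_iff_of_pos_right hZ]
      exact h.2

/-- In the window `|q - 1| = o (δ ^ (3/4))` the laws for `q` and for `q = 1` have the same
limits. -/
theorem lim (cpl : S_CPL) (uni : S_UNI) (ibp : S_IBP) (R : Rect) (δ : ℕ → ℝ) (hδ : ∀ n, 0 < δ n)
    (hδ0 : Tendsto δ atTop (𝓝 0)) (q : ℕ → ℝ) (hq : ∀ n, 0 < q n)
    (hw : Tendsto (fun n => |q n - 1| * δ n ^ (-(3/4 : ℝ))) atTop (𝓝 0))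
    (μ : ProbabilityMeasure (NonemptyCompacts ℂ)) :
    Tendsto (fun n => fkLaw R (hδ n) (hq n)) atTop (𝓝 μ) ↔
      Tendsto (fun n => R.law (hδ n)) atTop (𝓝 μ) := by
  -- the percolation below
  let x : ℕ → ℝ := fun n => xq (q n)
  have hx0 : Tendsto (fun n => x n * δ n ^ (-(3/4 : ℝ))) atTop (𝓝 0) := by
    apply squeeze_zero (fun n => mul_nonneg (xq_nonneg _) (Real.rpow_nonneg (hδ n).le _)) _ hw
    intro n
    exact mul_le_mul_of_nonneg_right (xq_le _ (hq n)) (Real.rpow_nonneg (hδ n).le _)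
  let p : ℕ → Edg → unitInterval := fun n _ =>
    ⟨1/2 - x n, by have := xq_le_half (q n); exact sub_nonneg.mpr this,
      by have := xq_nonneg (q n); change 1/2 - xq (q n) ≤ 1; linarith⟩
  have hpv : ∀ n e, (p n e : ℝ) = 1/2 - x n := fun n e => rfl
  have hlaw := law cpl uni ibp R δ hδ hδ0 p x (fun n e => by
    rw [hpv n e, show 1/2 - x n - 1/2 = -x n by ring, abs_neg, abs_of_nonneg (xq_nonneg _)]) hx0 μ
  rw [← hlaw]
  have key : ∀ f : NonemptyCompacts ℂ → ℝ, (∃ C : ℝ, ∀ x y, dist (f x) (f y) ≤ C) →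
      (∃ L, LipschitzWith L f) →
      Tendsto (fun n => ∫ ω, f ω ∂(fkLaw R (hδ n) (hq n) : Measure (NonemptyCompacts ℂ)) -
        ∫ ω, f ω ∂(lawp R (hδ n) (p n) : Measure (NonemptyCompacts ℂ))) atTop (𝓝 0) := by
    rintro f ⟨Cb, hb⟩ ⟨L, hL⟩
    rw [Metric.tendsto_nhds]
    intro ε' hε'
    have hCb : 0 ≤ Cb := le_trans dist_nonneg (hb (R.trace (hδ 0) ∅) (R.trace (hδ 0) ∅))
    have hLn : (0:ℝ) ≤ L := NNReal.coe_nonneg L
    obtain ⟨C, δ0, hC, hδ0', hδ01, HC⟩ := cpl R (ε' / (2 * (L + 1))) (by positivity)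
    have ev1 : ∀ᶠ n in atTop, δ n < δ0 := hδ0.eventually_lt_const hδ0'
    have ev2 : ∀ᶠ n in atTop, x n * δ n ^ (-(3/4:ℝ)) < ε' / (2 * (Cb * C + 1)) :=
      hx0.eventually_lt_const (by positivity)
    filter_upwards [ev1, ev2] with n h1 h2b
    obtain ⟨Ω, mΩ, ν, Fm, F, Fp, hprob, hFm, hFp, hs1, hs2, hF⟩ := fk_space R (δ n) (hq n)
    have hc := HC (δ n) (hδ n) h1 (x n) (xq_nonneg _) (xq_le_half _) Ω ν Fm Fp hFm hFp
      (fun ω => (hs1 ω).trans (hs2 ω))
    have hd : ν {U | ε' / (2 * (L + 1)) < dist (R.trace (hδ n) (F U))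
        (R.trace (hδ n) (Fm U))} ≤ ENNReal.ofReal (C * x n * δ n ^ (-(3/4 : ℝ))) := by
      refine (measure_mono ?_).trans hc
      intro U hU
      exact ⟨F U, Fm U, ⟨hs1 U, hs2 U⟩, ⟨Finset.Subset.refl _, (hs1 U).trans (hs2 U)⟩, hU⟩
    have hFm' : IsBer ν (R.edges (δ n)) (fun e => (p n e : ℝ)) Fm := hFm
    have e1 : (fkLaw R (hδ n) (hq n) : Measure (NonemptyCompacts ℂ)) =
        ν.map (fun ω => R.trace (hδ n) (F ω)) := fkM_eq_map (hδ n) hF
    have e2 : (lawp R (hδ n) (p n) : Measure (NonemptyCompacts ℂ)) =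
        ν.map (fun ω => R.trace (hδ n) (Fm ω)) := lawpM_eq_map ibp (hδ n) (p n) hFm'
    have hxd : 0 ≤ x n * δ n ^ (-(3/4:ℝ)) :=
      mul_nonneg (xq_nonneg _) (Real.rpow_nonneg (hδ n).le _)
    have hfin := int_diff ν (meas_tr (hδ n) hF)
      (meas_trace ibp (hδ n) (fun e => (p n e).2) hFm') f Cb hCb hb L hL (ε' / (2 * (L + 1)))
      (by positivity) (C * x n * δ n ^ (-(3/4 : ℝ))) (by rw [mul_assoc]; positivity) hd
    rw [e1, e2, Real.dist_eq, sub_zero]
    refine lt_of_le_of_lt hfin ?_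
    have a1 : (L : ℝ) * (ε' / (2 * (L + 1))) ≤ ε' / 2 := by
      rw [mul_div_assoc', div_le_div_iff₀ (by positivity) (by norm_num)]
      nlinarith
    have a2 : Cb * (C * x n * δ n ^ (-(3/4 : ℝ))) < ε' / 2 := by
      have a3 : Cb * C * (x n * δ n ^ (-(3/4 : ℝ))) ≤ Cb * C * (ε' / (2 * (Cb * C + 1))) :=
        mul_le_mul_of_nonneg_left h2b.le (by positivity)
      have a4 : Cb * C * (ε' / (2 * (Cb * C + 1))) < ε' / 2 := by
        rw [mul_div_assoc', div_lt_div_iff₀ (by positivity) (by norm_num)]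
        have : 0 ≤ Cb * C := by positivity
        nlinarith
      calc Cb * (C * x n * δ n ^ (-(3/4 : ℝ))) = Cb * C * (x n * δ n ^ (-(3/4 : ℝ))) := by ring
        _ ≤ _ := a3
        _ < _ := a4
    linarith
  rw [tendsto_iff_forall_lipschitz_integral_tendsto,
    tendsto_iff_forall_lipschitz_integral_tendsto]
  constructor
  · intro h f hb hL
    have h1 := (h f hb hL).sub (key f hb hL)
    simpa using h1
  · intro h f hb hL
    have h1 := (h f hb hL).add (key f hb hL)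
    simpa using h1

end Pool.Agent.Helper47K9.FQ
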